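import Mathlib
import Pool.Agent.H46.BeadMain

set_option autoImplicit false

open Topology Filter

namespace Pool.Agent.Results.MP_268976_an.EssentialSpectrumGap

section General

variable {H : Type*} [NormedAddCommGroup H] [InnerProductSpace ℂ H]

/-- `z` is a regular point (a point of the resolvent set) of the operator `T`: there is a bounded
operator `R` on the whole space which is a two-sided inverse of `T - z : dom T → H`, that is,
`R y ∈ dom T` and `T (R y) = y + z R y` for all `y`, and `R (T x - z x) = x` for `x ∈ dom T`. -/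
def IsRegularPoint (T : H →ₗ.[ℂ] H) (z : ℂ) : Prop :=
  ∃ R : H →L[ℂ] H, (∀ y : H, (R y, y + z • R y) ∈ T.graph) ∧
    ∀ p ∈ T.graph, R (p.2 - z • p.1) = p.1

private theorem eig_add {T : H →ₗ.[ℂ] H} {z : ℂ} {x y : H} (hx : (x, z • x) ∈ T.graph)
    (hy : (y, z • y) ∈ T.graph) : (x + y, z • (x + y)) ∈ T.graph := by
  have h := T.graph.add_mem hx hy
  simpa [smul_add] using h

private theorem eig_zero {T : H →ₗ.[ℂ] H} {z : ℂ} : ((0 : H), z • (0 : H)) ∈ T.graph := by
  rw [smul_zero]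
  exact T.graph.zero_mem

private theorem eig_smul {T : H →ₗ.[ℂ] H} {z : ℂ} (c : ℂ) {x : H} (hx : (x, z • x) ∈ T.graph) :
    (c • x, z • (c • x)) ∈ T.graph := by
  have h := T.graph.smul_mem c hx
  simpa [smul_comm c z x] using h

/-- The eigenspace of `T` for the number `z`: the `x` in the domain of `T` with `T x = z x`. -/
def eigenspace (T : H →ₗ.[ℂ] H) (z : ℂ) : Submodule ℂ H where
  carrier := {x | (x, z • x) ∈ T.graph}
  add_mem' := eig_add
  zero_mem' := eig_zero
  smul_mem' := fun c _ hx => eig_smul c hx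

/-- The spectrum of `T`: the complement of the resolvent set. -/
def spec (T : H →ₗ.[ℂ] H) : Set ℂ :=
  {z | ¬ IsRegularPoint T z}

/-- The essential spectrum of `T`: the spectrum with the isolated eigenvalues of finite multiplicity
removed. -/
def essSpec (T : H →ₗ.[ℂ] H) : Set ℂ :=
  {z | z ∈ spec T ∧ ¬ ((∀ᶠ w in 𝓝[≠] z, w ∉ spec T) ∧ eigenspace T z ≠ ⊥ ∧
    FiniteDimensional ℂ (eigenspace T z))}

/-- The continuous linear map `(x, T x) ↦ T x - z x` on the graph. -/
private noncomputable def sh (T : H →ₗ.[ℂ] H) (z : ℂ) : T.graph →L[ℂ] H :=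
  ((ContinuousLinearMap.snd ℂ H H) - z • (ContinuousLinearMap.fst ℂ H H)).comp T.graph.subtypeL

private theorem sh_apply (T : H →ₗ.[ℂ] H) (z : ℂ) (p : T.graph) :
    sh T z p = p.1.2 - z • p.1.1 := by
  simp [sh]

private theorem norm_le_of_bound {T : H →ₗ.[ℂ] H} {z : ℂ} {c : ℝ} (hc : 0 < c) (p : T.graph)
    (h : c * ‖p.1.1‖ ≤ ‖sh T z p‖) : ‖p‖ ≤ (1 + (1 + ‖z‖) / c) * ‖sh T z p‖ := by
  have hx : ‖p.1.1‖ ≤ ‖sh T z p‖ / c := by
    rw [le_div_iff₀ hc]
    linarith
  have hy : ‖p.1.2‖ ≤ ‖sh T z p‖ + ‖z‖ * ‖p.1.1‖ := by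
    have h1 : p.1.2 = sh T z p + z • p.1.1 := by rw [sh_apply]; abel
    calc ‖p.1.2‖ = ‖sh T z p + z • p.1.1‖ := by rw [← h1]
      _ ≤ ‖sh T z p‖ + ‖z • p.1.1‖ := norm_add_le _ _
      _ = ‖sh T z p‖ + ‖z‖ * ‖p.1.1‖ := by rw [norm_smul]
  have h2 : ‖p‖ = max ‖p.1.1‖ ‖p.1.2‖ := rfl
  have h3 : 0 ≤ ‖sh T z p‖ := norm_nonneg _
  have h4 : 0 ≤ ‖z‖ := norm_nonneg _
  have h5 : (1 + (1 + ‖z‖) / c) * ‖sh T z p‖
      = ‖sh T z p‖ + ‖sh T z p‖ / c + ‖z‖ * (‖sh T z p‖ / c) := by
    field_simp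
    ring
  have h6 : 0 ≤ ‖sh T z p‖ / c := by positivity
  have h7 : ‖z‖ * ‖p.1.1‖ ≤ ‖z‖ * (‖sh T z p‖ / c) := mul_le_mul_of_nonneg_left hx h4
  have h8 : 0 ≤ ‖z‖ * (‖sh T z p‖ / c) := by positivity
  rw [h2, h5]
  apply max_le <;> linarith

private theorem antilipschitz_of_norm_le {E F : Type*} [NormedAddCommGroup E] [NormedSpace ℂ E]
    [NormedAddCommGroup F] [NormedSpace ℂ F] (f : E →L[ℂ] F) (K : ℝ) (hK : 0 ≤ K)
    (h : ∀ x, ‖x‖ ≤ K * ‖f x‖) : AntilipschitzWith (Real.toNNReal K) f := by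
  apply AddMonoidHomClass.antilipschitz_of_bound
  intro x
  rw [Real.coe_toNNReal _ hK]
  exact h x

variable [CompleteSpace H]

private theorem mem_graph_adjoint {S : H →ₗ.[ℂ] H} (hd : Dense (S.domain : Set H)) {w v : H}
    (h : ∀ p ∈ S.graph, inner ℂ v p.1 = inner ℂ w p.2) : (w, v) ∈ S.adjoint.graph := by
  have hx : ∀ x : S.domain, inner ℂ v (x : H) = inner ℂ w (S x) := fun x =>
    h _ (S.mem_graph x)
  have hw : w ∈ S.adjoint.domain := S.mem_adjoint_domain_of_exists w ⟨v, hx⟩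
  rw [LinearPMap.mem_graph_iff]
  exact ⟨⟨w, hw⟩, rfl, S.adjoint_apply_eq hd ⟨w, hw⟩ hx⟩

private theorem inner_of_mem_adjoint {S : H →ₗ.[ℂ] H} (hd : Dense (S.domain : Set H)) {p q : H × H}
    (hp : p ∈ S.adjoint.graph) (hq : q ∈ S.graph) : inner ℂ p.2 q.1 = inner ℂ p.1 q.2 := by
  rw [LinearPMap.mem_graph_iff] at hp hq
  obtain ⟨x, hx1, hx2⟩ := hp
  obtain ⟨y, hy1, hy2⟩ := hq
  rw [← hx1, ← hx2, ← hy1, ← hy2]
  exact S.adjoint_isFormalAdjoint hd x y

/-- Self-adjoint operators: symmetry, in terms of the graph. -/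
private theorem symm_graph {T : H →ₗ.[ℂ] H} (hT : IsSelfAdjoint T) {p q : H × H}
    (hp : p ∈ T.graph) (hq : q ∈ T.graph) : inner ℂ p.2 q.1 = inner ℂ p.1 q.2 := by
  have hd := hT.dense_domain
  have h : T.adjoint = T := hT
  exact inner_of_mem_adjoint hd (by rw [h]; exact hp) hq

private theorem mem_graph_of_forall {T : H →ₗ.[ℂ] H} (hT : IsSelfAdjoint T) {w v : H}
    (h : ∀ p ∈ T.graph, inner ℂ v p.1 = inner ℂ w p.2) : (w, v) ∈ T.graph := by
  have h1 := mem_graph_adjoint hT.dense_domain h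
  have h2 : T.adjoint = T := hT
  rwa [h2] at h1

private theorem regular_of_bijective {T : H →ₗ.[ℂ] H} [CompleteSpace T.graph] {z : ℂ}
    (h1 : (sh T z).ker = ⊥) (h2 : (sh T z).range = ⊤) : IsRegularPoint T z := by
  let e := ContinuousLinearEquiv.ofBijective (sh T z) h1 h2
  refine ⟨((ContinuousLinearMap.fst ℂ H H).comp T.graph.subtypeL).comp (e.symm : H →L[ℂ] T.graph),
    ?_, ?_⟩
  · intro y
    have h3 : sh T z (e.symm y) = y := ContinuousLinearEquiv.ofBijective_apply_symm_apply _ h1 h2 y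
    rw [sh_apply] at h3
    have h4 := (e.symm y).2
    have h5 : ((e.symm y).1.1, y + z • (e.symm y).1.1) = (e.symm y).1 := by
      refine Prod.ext rfl ?_
      exact (sub_eq_iff_eq_add.mp h3).symm
    change ((e.symm y).1.1, y + z • (e.symm y).1.1) ∈ T.graph
    rw [h5]
    exact h4
  · intro p hp
    have h3 : sh T z ⟨p, hp⟩ = p.2 - z • p.1 := sh_apply _ _ _
    rw [← h3]
    have h4 : e.symm (sh T z ⟨p, hp⟩) = ⟨p, hp⟩ :=
      ContinuousLinearEquiv.ofBijective_symm_apply_apply _ h1 h2 _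
    change (e.symm (sh T z ⟨p, hp⟩)).1.1 = p.1
    rw [h4]

private theorem regular_of_bound {T : H →ₗ.[ℂ] H} (hT : IsSelfAdjoint T) (z : ℂ) (c : ℝ)
    (hc : 0 < c) (h1 : ∀ p : T.graph, c * ‖p.1.1‖ ≤ ‖sh T z p‖)
    (h2 : ∀ p : T.graph, c * ‖p.1.1‖ ≤ ‖sh T ((starRingEnd ℂ) z) p‖) : IsRegularPoint T z := by
  have : CompleteSpace T.graph := hT.isClosed.completeSpace_coe
  have hanti := antilipschitz_of_norm_le (sh T z) (1 + (1 + ‖z‖) / c) (by positivity)
    (fun p => norm_le_of_bound hc p (h1 p))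
  have hker : (sh T z).ker = ⊥ := by
    rw [LinearMap.ker_eq_bot]
    exact hanti.injective
  have hclosed : IsClosed ((sh T z).range : Set H) := hanti.isClosed_range (sh T z).uniformContinuous
  have hrange : (sh T z).range = ⊤ := by
    have h3 : (sh T z).rangeᗮ = ⊥ := by
      rw [Submodule.eq_bot_iff]
      intro w hw
      rw [Submodule.mem_orthogonal'] at hw
      have h4 : (w, (starRingEnd ℂ) z • w) ∈ T.graph := by
        apply mem_graph_of_forall hT
        intro p hp
        have h5 := hw (sh T z ⟨p, hp⟩) ⟨⟨p, hp⟩, rfl⟩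
        rw [sh_apply, inner_sub_right, inner_smul_right, sub_eq_zero] at h5
        rw [inner_smul_left, Complex.conj_conj]
        exact h5.symm
      have h6 := h2 ⟨_, h4⟩
      rw [sh_apply] at h6
      simp only [sub_self, norm_zero] at h6
      have h7 : ‖w‖ ≤ 0 := by
        by_contra hcon
        push Not at hcon
        have := mul_pos hc hcon
        linarith
      exact norm_le_zero_iff.mp h7
    have h8 := (Submodule.topologicalClosure_eq_top_iff (K := (sh T z).range)).mpr h3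
    rwa [hclosed.submodule_topologicalClosure_eq] at h8
  exact regular_of_bijective hker hrange

private theorem bound_of_im {T : H →ₗ.[ℂ] H} (hT : IsSelfAdjoint T) (z : ℂ) (p : T.graph) :
    |z.im| * ‖p.1.1‖ ≤ ‖sh T z p‖ := by
  have h1 : inner ℂ p.1.2 p.1.1 = inner ℂ p.1.1 p.1.2 := symm_graph hT p.2 p.2
  have h2 : (inner ℂ p.1.1 p.1.2 : ℂ).im = 0 := by
    have h3 : (starRingEnd ℂ) (inner ℂ p.1.1 p.1.2 : ℂ) = inner ℂ p.1.1 p.1.2 := by
      rw [inner_conj_symm, h1]
    exact Complex.conj_eq_iff_im.mp h3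
  have h4 : (inner ℂ p.1.1 (sh T z p) : ℂ).im = -(z.im * ‖p.1.1‖ ^ 2) := by
    rw [sh_apply, inner_sub_right, inner_smul_right, inner_self_eq_norm_sq_to_K, Complex.sub_im, h2]
    have h5 : (z * ((‖p.1.1‖ : ℂ)) ^ 2).im = z.im * ‖p.1.1‖ ^ 2 := by
      rw [← Complex.ofReal_pow, Complex.im_mul_ofReal]
    rw [zero_sub]
    exact congr_arg Neg.neg h5
  have h6 : |z.im| * ‖p.1.1‖ ^ 2 ≤ ‖p.1.1‖ * ‖sh T z p‖ := by
    calc |z.im| * ‖p.1.1‖ ^ 2 = |(inner ℂ p.1.1 (sh T z p) : ℂ).im| := by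
          rw [h4, abs_neg, abs_mul, abs_of_nonneg (by positivity : (0 : ℝ) ≤ ‖p.1.1‖ ^ 2)]
      _ ≤ ‖(inner ℂ p.1.1 (sh T z p) : ℂ)‖ := Complex.abs_im_le_norm _
      _ ≤ ‖p.1.1‖ * ‖sh T z p‖ := norm_inner_le_norm _ _
  rcases (norm_nonneg p.1.1).eq_or_lt with h7 | h7
  · rw [← h7, mul_zero]
    exact norm_nonneg _
  · have h8 : ‖p.1.1‖ * (|z.im| * ‖p.1.1‖) ≤ ‖p.1.1‖ * ‖sh T z p‖ := by
      calc ‖p.1.1‖ * (|z.im| * ‖p.1.1‖) = |z.im| * ‖p.1.1‖ ^ 2 := by ring
        _ ≤ _ := h6
    exact le_of_mul_le_mul_left h8 h7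

private theorem regular_of_im {T : H →ₗ.[ℂ] H} (hT : IsSelfAdjoint T) (z : ℂ) (hz : z.im ≠ 0) :
    IsRegularPoint T z := by
  apply regular_of_bound hT z |z.im| (abs_pos.mpr hz) (bound_of_im hT z)
  intro p
  have h := bound_of_im hT ((starRingEnd ℂ) z) p
  rwa [Complex.conj_im, abs_neg] at h

/-- The basic criterion for essential self-adjointness. -/
private theorem selfAdjoint_closure {S : H →ₗ.[ℂ] H} (hd : Dense (S.domain : Set H))
    (hs : S.IsFormalAdjoint S) (hp : ∀ x : H, (x, Complex.I • x) ∈ S.adjoint.graph → x = 0)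
    (hm : ∀ x : H, (x, -Complex.I • x) ∈ S.adjoint.graph → x = 0) :
    S.IsClosable ∧ IsSelfAdjoint S.closure ∧ S.closure ≤ S.adjoint := by
  have hle : S ≤ S.adjoint := hs.le_adjoint hd
  have hclos : S.IsClosable :=
    LinearPMap.isClosable_iff_exists_closed_extension.mpr ⟨_, S.adjoint_isClosed hd, hle⟩
  set T := S.closure with hTdef
  have hgraph : S.graph.topologicalClosure = T.graph := hclos.graph_closure_eq_closure_graph
  have hTS : T.graph ≤ S.adjoint.graph := by
    rw [← hgraph]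
    exact Submodule.topologicalClosure_minimal _ (LinearPMap.le_graph_of_le hle)
      (S.adjoint_isClosed hd)
  have hST : S ≤ T := S.le_closure
  have hdT : Dense (T.domain : Set H) := hd.mono hST.1
  have hsymm : ∀ p ∈ S.adjoint.graph, ∀ q ∈ T.graph, inner ℂ p.2 q.1 = inner ℂ p.1 q.2 := by
    intro p hp q hq
    rw [← hgraph] at hq
    have hcl : IsClosed {q : H × H | inner ℂ p.2 q.1 = inner ℂ p.1 q.2} :=
      isClosed_eq (by fun_prop) (by fun_prop)
    have hsub : (S.graph : Set (H × H)) ⊆ {q : H × H | inner ℂ p.2 q.1 = inner ℂ p.1 q.2} :=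
      fun q hq => inner_of_mem_adjoint hd hp hq
    exact closure_minimal hsub hcl hq
  have hTT : T ≤ T.adjoint := by
    apply LinearPMap.IsFormalAdjoint.le_adjoint hdT
    intro x y
    exact hsymm _ (hTS (T.mem_graph x)) _ (T.mem_graph y)
  -- a temporary form of the lower bound
  have hbound : ∀ p : T.graph, (1 : ℝ) * ‖p.1.1‖ ≤ ‖sh T (-Complex.I) p‖ := by
    intro p
    have h1 : inner ℂ p.1.2 p.1.1 = inner ℂ p.1.1 p.1.2 := hsymm _ (hTS p.2) _ p.2
    have h2 : (inner ℂ p.1.1 p.1.2 : ℂ).im = 0 := by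
      have h3 : (starRingEnd ℂ) (inner ℂ p.1.1 p.1.2 : ℂ) = inner ℂ p.1.1 p.1.2 := by
        rw [inner_conj_symm, h1]
      exact Complex.conj_eq_iff_im.mp h3
    have h4 : (inner ℂ p.1.1 (sh T (-Complex.I) p) : ℂ).im = ‖p.1.1‖ ^ 2 := by
      rw [sh_apply, inner_sub_right, inner_smul_right, inner_self_eq_norm_sq_to_K, Complex.sub_im,
        h2]
      have h5 : (-Complex.I * ((‖p.1.1‖ : ℂ)) ^ 2).im = -‖p.1.1‖ ^ 2 := by
        rw [← Complex.ofReal_pow, Complex.im_mul_ofReal]
        simp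
      rw [zero_sub]
      exact (congr_arg Neg.neg h5).trans (neg_neg _)
    have h6 : ‖p.1.1‖ ^ 2 ≤ ‖p.1.1‖ * ‖sh T (-Complex.I) p‖ := by
      calc ‖p.1.1‖ ^ 2 = |(inner ℂ p.1.1 (sh T (-Complex.I) p) : ℂ).im| := by
            rw [h4, abs_of_nonneg (by positivity : (0 : ℝ) ≤ ‖p.1.1‖ ^ 2)]
        _ ≤ ‖(inner ℂ p.1.1 (sh T (-Complex.I) p) : ℂ)‖ := Complex.abs_im_le_norm _
        _ ≤ ‖p.1.1‖ * ‖sh T (-Complex.I) p‖ := norm_inner_le_norm _ _
    rcases (norm_nonneg p.1.1).eq_or_lt with h7 | h7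
    · rw [← h7, mul_zero]
      exact norm_nonneg _
    · have h8 : ‖p.1.1‖ * ‖p.1.1‖ ≤ ‖p.1.1‖ * ‖sh T (-Complex.I) p‖ := by
        calc ‖p.1.1‖ * ‖p.1.1‖ = ‖p.1.1‖ ^ 2 := by ring
          _ ≤ _ := h6
      rw [one_mul]
      exact le_of_mul_le_mul_left h8 h7
  have : CompleteSpace T.graph := hclos.closure_isClosed.completeSpace_coe
  have hanti := antilipschitz_of_norm_le (sh T (-Complex.I)) (1 + (1 + ‖-Complex.I‖) / 1)
    (by positivity) (fun p => norm_le_of_bound one_pos p (hbound p))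
  have hclosed : IsClosed ((sh T (-Complex.I)).range : Set H) :=
    hanti.isClosed_range (sh T (-Complex.I)).uniformContinuous
  have hrange : (sh T (-Complex.I)).range = ⊤ := by
    have h3 : (sh T (-Complex.I)).rangeᗮ = ⊥ := by
      rw [Submodule.eq_bot_iff]
      intro w hw
      rw [Submodule.mem_orthogonal'] at hw
      apply hp
      apply mem_graph_adjoint hd
      intro p hp
      have hpT : p ∈ T.graph := LinearPMap.le_graph_of_le hST hp
      have h5 := hw (sh T (-Complex.I) ⟨p, hpT⟩) ⟨⟨p, hpT⟩, rfl⟩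
      rw [sh_apply, inner_sub_right, inner_smul_right, sub_eq_zero] at h5
      rw [inner_smul_left, Complex.conj_I]
      exact h5.symm
    have h8 := (Submodule.topologicalClosure_eq_top_iff (K := (sh T (-Complex.I)).range)).mpr h3
    rwa [hclosed.submodule_topologicalClosure_eq] at h8
  have hTle : T.adjoint ≤ T := by
    apply LinearPMap.le_of_le_graph
    rintro ⟨u, v⟩ huv
    have huv' : (u, v) ∈ S.adjoint.graph := by
      apply mem_graph_adjoint hd
      intro p hp
      exact inner_of_mem_adjoint hdT huv (LinearPMap.le_graph_of_le hST hp)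
    obtain ⟨p, hp⟩ : ∃ p : T.graph, sh T (-Complex.I) p = v - (-Complex.I) • u := by
      have : v - (-Complex.I) • u ∈ (sh T (-Complex.I)).range := by rw [hrange]; trivial
      exact this
    rw [sh_apply] at hp
    have h9 : (u - p.1.1, v - p.1.2) ∈ S.adjoint.graph := S.adjoint.graph.sub_mem huv' (hTS p.2)
    have h10 : v - p.1.2 = -Complex.I • (u - p.1.1) := by
      rw [smul_sub]
      have h12 : v - p.1.2 = (v - (-Complex.I) • u) - (p.1.2 - (-Complex.I) • p.1.1)
          + ((-Complex.I) • u - (-Complex.I) • p.1.1) := by abel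
      rw [h12, hp, sub_self, zero_add]
    rw [h10] at h9
    have h11 := hm _ h9
    rw [h11, smul_zero] at h10
    have e1 : u = p.1.1 := sub_eq_zero.mp h11
    have e2 : v = p.1.2 := sub_eq_zero.mp h10
    rw [e1, e2]
    exact p.2
  exact ⟨hclos, le_antisymm hTle hTT, LinearPMap.le_of_le_graph hTS⟩

omit [InnerProductSpace ℂ H] [CompleteSpace H] in
private theorem isClosed_range_of_bound [NormedSpace ℂ H] {E : Type*} [NormedAddCommGroup E]
    [NormedSpace ℂ E] [CompleteSpace E] (f : E →L[ℂ] H) {N : ℕ} (g : E →L[ℂ] (Fin N → ℂ)) (K : ℝ)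
    (hK : 0 ≤ K) (h : ∀ x, g x = 0 → ‖x‖ ≤ K * ‖f x‖) : IsClosed (f.range : Set H) := by
  have hcof : (g.ker).CoFG := by
    have : FiniteDimensional ℂ (E ⧸ g.ker) :=
      (g : E →ₗ[ℂ] (Fin N → ℂ)).quotKerEquivRange.symm.finiteDimensional
    infer_instance
  apply LinearMap.isClosed_range_of_isClosed_map_of_finiteDimensional_quotient (s := g.ker)
  have hk : IsClosed (g.ker : Set E) := g.isClosed_ker
  have : CompleteSpace g.ker := hk.completeSpace_coe
  have hanti := antilipschitz_of_norm_le (f.comp g.ker.subtypeL) K hK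
    (fun p : g.ker => h p.1 p.2)
  have hcl := hanti.isClosed_range (f.comp g.ker.subtypeL).uniformContinuous
  have he : (Submodule.map (f : E →ₗ[ℂ] H) g.ker : Set H)
      = Set.range (f.comp g.ker.subtypeL) := by
    ext y
    constructor
    · rintro ⟨p, hp, rfl⟩
      exact ⟨⟨p, hp⟩, rfl⟩
    · rintro ⟨p, rfl⟩
      exact ⟨p.1, p.2, rfl⟩
  rw [he]
  exact hcl

private theorem bound_of_closed_range {E : Type*} [NormedAddCommGroup E]
    [NormedSpace ℂ E] [CompleteSpace E] (f : E →L[ℂ] H) (s : Submodule ℂ E)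
    (hs : IsClosed (s : Set E)) (hinj : ∀ x ∈ s, f x = 0 → x = 0)
    (hsurj : ∀ y : E, ∃ x ∈ s, f x = f y) (hr : IsClosed (f.range : Set H)) :
    ∃ K : ℝ, 0 < K ∧ ∀ x ∈ s, ‖x‖ ≤ K * ‖f x‖ := by
  have : CompleteSpace s := hs.completeSpace_coe
  have hinj' : Function.Injective (f.comp s.subtypeL) := by
    rw [injective_iff_map_eq_zero]
    rintro ⟨q, hq⟩ hq0
    exact Subtype.ext (hinj q hq hq0)
  have hcl : IsClosed (Set.range (f.comp s.subtypeL)) := by
    have he : Set.range (f.comp s.subtypeL) = (f.range : Set H) := by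
      ext y
      constructor
      · rintro ⟨q, rfl⟩
        exact ⟨q.1, rfl⟩
      · rintro ⟨p, rfl⟩
        obtain ⟨q, hq, hqp⟩ := hsurj p
        exact ⟨⟨q, hq⟩, hqp⟩
    rw [he]
    exact hr
  obtain ⟨K, hK⟩ := ContinuousLinearMap.antilipschitz_of_injective_of_isClosed_range
    (f.comp s.subtypeL) hinj' hcl
  refine ⟨K + 1, by positivity, fun q hq => ?_⟩
  have h1 := hK.le_mul_dist ⟨q, hq⟩ 0
  rw [map_zero, dist_zero_right, dist_zero_right] at h1
  have h3 : ‖(f.comp s.subtypeL) ⟨q, hq⟩‖ = ‖f q‖ := rfl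
  have h2 : ‖(⟨q, hq⟩ : s)‖ = ‖q‖ := rfl
  rw [h3, h2] at h1
  have h4 : 0 ≤ ‖f q‖ := norm_nonneg _
  calc ‖q‖ ≤ K * ‖f q‖ := h1
    _ ≤ (K + 1) * ‖f q‖ := by nlinarith

/-- If `T - t` is bounded below on the vectors of the domain killed by `N` continuous functionals,
then near `t` the spectrum contains at most the point `t`, and the eigenspace is finite
dimensional. -/
private theorem gap {T : H →ₗ.[ℂ] H} (hT : IsSelfAdjoint T) (t : ℝ) (c : ℝ) (hc : 0 < c) {N : ℕ}
    (φ : H →L[ℂ] (Fin N → ℂ))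
    (h : ∀ p : T.graph, φ p.1.1 = 0 → c * ‖p.1.1‖ ≤ ‖sh T (t : ℂ) p‖) :
    FiniteDimensional ℂ (eigenspace T (t : ℂ)) ∧
      (∀ᶠ w in 𝓝[≠] (t : ℂ), IsRegularPoint T w) ∧
      (eigenspace T (t : ℂ) = ⊥ → IsRegularPoint T (t : ℂ)) := by
  set f := sh T (t : ℂ) with hf
  set E := eigenspace T (t : ℂ) with hE
  have : CompleteSpace T.graph := hT.isClosed.completeSpace_coe
  -- the eigenspace is finite dimensional
  have hfin : FiniteDimensional ℂ E := by
    let ψ : E →ₗ[ℂ] (Fin N → ℂ) := (φ : H →ₗ[ℂ] (Fin N → ℂ)).comp E.subtype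
    apply FiniteDimensional.of_injective ψ
    rw [← LinearMap.ker_eq_bot, LinearMap.ker_eq_bot']
    rintro ⟨x, hx⟩ hx0
    have h1 : φ x = 0 := hx0
    have h2 := h ⟨(x, (t : ℂ) • x), hx⟩ h1
    rw [hf, sh_apply] at h2
    simp only [sub_self, norm_zero] at h2
    have h3 : ‖x‖ ≤ 0 := by
      by_contra hcon
      push Not at hcon
      have := mul_pos hc hcon
      linarith
    exact Subtype.ext (norm_le_zero_iff.mp h3)
  -- the range of `f` is closed
  have hrange : IsClosed (f.range : Set H) :=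
    isClosed_range_of_bound f (φ.comp ((ContinuousLinearMap.fst ℂ H H).comp T.graph.subtypeL))
      (1 + (1 + ‖(t : ℂ)‖) / c) (by positivity) (fun p hp => norm_le_of_bound hc p (h p hp))
  -- decomposition along the eigenspace
  have hdec : ∀ p : T.graph, ∃ e ∈ E, ∃ q : T.graph, p.1.1 = e + q.1.1 ∧ q.1.1 ∈ Eᗮ ∧
      ∀ w : ℂ, sh T w p = ((t : ℂ) - w) • e + sh T w q := by
    intro p
    obtain ⟨e, he, x1, hx1, hsum⟩ := E.exists_add_mem_mem_orthogonal p.1.1
    have heg : (e, (t : ℂ) • e) ∈ T.graph := he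
    refine ⟨e, he, p - ⟨_, heg⟩, ?_, ?_, ?_⟩
    · change p.1.1 = e + (p.1.1 - e)
      abel
    · change p.1.1 - e ∈ Eᗮ
      rw [hsum]
      simpa using hx1
    · intro w
      rw [map_sub, sh_apply T w ⟨_, heg⟩]
      rw [sub_smul]
      abel
  -- bounded below on the orthogonal complement of the eigenspace
  obtain ⟨K, hK, hKb⟩ : ∃ K : ℝ, 0 < K ∧ ∀ q : T.graph, q.1.1 ∈ Eᗮ → ‖q.1.1‖ ≤ K * ‖f q‖ := by
    have hcont : Continuous (fun p : T.graph => p.1.1) := by fun_prop
    have hinj : ∀ q ∈ Eᗮ.comap ((LinearMap.fst ℂ H H).comp T.graph.subtype), f q = 0 → q = 0 := by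
      intro q hq hq0
      rw [hf, sh_apply, sub_eq_zero] at hq0
      have h2 : q.1.1 ∈ E := by
        change (q.1.1, (t : ℂ) • q.1.1) ∈ T.graph
        rw [← hq0]
        exact q.2
      have h3 : q.1.1 = 0 := by
        have h4 : q.1.1 ∈ E ⊓ Eᗮ := ⟨h2, hq⟩
        rw [E.inf_orthogonal_eq_bot] at h4
        exact h4
      have h5 : q.1.2 = 0 := by rw [hq0, h3, smul_zero]
      exact Subtype.ext (Prod.ext h3 h5)
    have hsur : ∀ p : T.graph, ∃ q ∈ Eᗮ.comap ((LinearMap.fst ℂ H H).comp T.graph.subtype),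
        f q = f p := by
      intro p
      obtain ⟨e, -, q, -, hq, hw⟩ := hdec p
      refine ⟨q, hq, ?_⟩
      have := hw (t : ℂ)
      rw [sub_self, zero_smul, zero_add] at this
      exact this.symm
    obtain ⟨K, hK, hKb⟩ := bound_of_closed_range f
      (Eᗮ.comap ((LinearMap.fst ℂ H H).comp T.graph.subtype))
      (E.isClosed_orthogonal.preimage hcont) hinj hsur hrange
    refine ⟨K, hK, fun q hq => ?_⟩
    have h2 : ‖q.1.1‖ ≤ ‖q‖ := le_max_left _ _
    exact h2.trans (hKb q hq)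
  -- the main estimate
  have hmain : ∀ w : ℂ, ‖w - t‖ ≤ 1 / (2 * K) → ∀ p : T.graph,
      min ‖w - t‖ (1 / (2 * K)) * ‖p.1.1‖ ≤ ‖sh T w p‖ := by
    intro w hw p
    set δ := min ‖w - t‖ (1 / (2 * K)) with hδ
    obtain ⟨e, he, q, hpq, hq, hdw⟩ := hdec p
    have hδ0 : 0 ≤ δ := by positivity
    have h1 : inner ℂ e (sh T w q) = 0 := by
      have h2 : inner ℂ ((t : ℂ) • e) q.1.1 = inner ℂ e q.1.2 :=
        symm_graph hT (p := (e, (t : ℂ) • e)) he q.2
      have h3 : inner ℂ e q.1.1 = 0 := Submodule.inner_right_of_mem_orthogonal he hq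
      rw [sh_apply, inner_sub_right, inner_smul_right, h3, mul_zero, sub_zero, ← h2,
        inner_smul_left, h3, mul_zero]
    have h4 : ‖sh T w p‖ ^ 2 = ‖((t : ℂ) - w) • e‖ ^ 2 + ‖sh T w q‖ ^ 2 := by
      rw [hdw w, sq, sq, sq]
      refine norm_add_sq_eq_norm_sq_add_norm_sq_of_inner_eq_zero (𝕜 := ℂ) _ _ ?_
      rw [inner_smul_left, h1, mul_zero]
    have h5 : ‖p.1.1‖ ^ 2 = ‖e‖ ^ 2 + ‖q.1.1‖ ^ 2 := by
      rw [hpq, sq, sq, sq]
      refine norm_add_sq_eq_norm_sq_add_norm_sq_of_inner_eq_zero (𝕜 := ℂ) _ _ ?_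
      exact Submodule.inner_right_of_mem_orthogonal he hq
    have h6 : δ * ‖q.1.1‖ ≤ ‖sh T w q‖ := by
      have h7 : ‖q.1.1‖ / K ≤ ‖f q‖ := by
        rw [div_le_iff₀ hK]
        linarith [hKb q hq]
      have h8 : ‖f q‖ ≤ ‖sh T w q‖ + ‖w - t‖ * ‖q.1.1‖ := by
        have h9 : f q = sh T w q + (w - t) • q.1.1 := by
          rw [hf, sh_apply, sh_apply, sub_smul]
          abel
        calc ‖f q‖ = ‖sh T w q + (w - t) • q.1.1‖ := by rw [h9]
          _ ≤ ‖sh T w q‖ + ‖(w - t) • q.1.1‖ := norm_add_le _ _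
          _ = _ := by rw [norm_smul]
      have h10 : δ ≤ 1 / (2 * K) := min_le_right _ _
      have h11 : 0 ≤ ‖q.1.1‖ := norm_nonneg _
      have h12 : ‖w - t‖ * ‖q.1.1‖ ≤ 1 / (2 * K) * ‖q.1.1‖ := mul_le_mul_of_nonneg_right hw h11
      have h13 : δ * ‖q.1.1‖ ≤ 1 / (2 * K) * ‖q.1.1‖ := mul_le_mul_of_nonneg_right h10 h11
      have h14 : ‖q.1.1‖ / K = 1 / (2 * K) * ‖q.1.1‖ + 1 / (2 * K) * ‖q.1.1‖ := by
        field_simp
        ring
      linarith
    have h15 : δ * ‖e‖ ≤ ‖((t : ℂ) - w) • e‖ := by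
      rw [norm_smul, ← norm_neg ((t : ℂ) - w), neg_sub]
      exact mul_le_mul_of_nonneg_right (min_le_left _ _) (norm_nonneg _)
    have h16 : (δ * ‖p.1.1‖) ^ 2 ≤ ‖sh T w p‖ ^ 2 := by
      rw [h4, mul_pow, h5, mul_add, ← mul_pow, ← mul_pow]
      exact add_le_add (pow_le_pow_left₀ (by positivity) h15 2)
        (pow_le_pow_left₀ (by positivity) h6 2)
    exact le_of_sq_le_sq h16 (norm_nonneg _)
  refine ⟨hfin, ?_, ?_⟩
  · have hball : Metric.closedBall (t : ℂ) (1 / (2 * K)) ∈ 𝓝 (t : ℂ) :=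
      Metric.closedBall_mem_nhds _ (by positivity)
    filter_upwards [mem_nhdsWithin_of_mem_nhds hball, self_mem_nhdsWithin] with w hw hne
    have h1 : ‖w - t‖ ≤ 1 / (2 * K) := by
      rwa [mem_closedBall_iff_norm] at hw
    have h2 : 0 < ‖w - t‖ := norm_pos_iff.mpr (sub_ne_zero.mpr hne)
    have h3 : ‖(starRingEnd ℂ) w - t‖ = ‖w - t‖ := by
      rw [← RCLike.norm_conj (w - (t : ℂ)), map_sub, Complex.conj_ofReal]
    apply regular_of_bound hT w (min ‖w - t‖ (1 / (2 * K))) (lt_min h2 (by positivity)) (hmain w h1)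
    have h4 := hmain ((starRingEnd ℂ) w) (by rw [h3]; exact h1)
    rwa [h3] at h4
  · intro hbot
    have h1 : ∀ p : T.graph, 1 / K * ‖p.1.1‖ ≤ ‖sh T (t : ℂ) p‖ := by
      intro p
      have h2 : p.1.1 ∈ Eᗮ := by rw [hbot, Submodule.bot_orthogonal_eq_top]; trivial
      have h3 := hKb p h2
      rw [div_mul_eq_mul_div, one_mul, div_le_iff₀ hK]
      linarith
    apply regular_of_bound hT (t : ℂ) (1 / K) (by positivity) h1
    rw [Complex.conj_ofReal]
    exact h1

end General

/-- The Hilbert space `ℓ²(ℕ)` of square summable complex sequences. -/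
abbrev Ell2 : Type := lp (fun _ : ℕ => ℂ) 2

/-- The formal action of the Jacobi matrix with off-diagonal entries `a k` (at the places
`(k, k + 1)` and `(k + 1, k)`) and diagonal entries `b k` on a sequence. -/
noncomputable def jacobi (a b : ℕ → ℝ) (u : ℕ → ℂ) (k : ℕ) : ℂ :=
  (if k = 0 then 0 else (a (k - 1) : ℂ) * u (k - 1)) + (b k : ℂ) * u k + (a k : ℂ) * u (k + 1)

private theorem memLp_of_finite {f : ℕ → ℂ} (h : (Function.support f).Finite) :
    Memℓp (E := fun _ : ℕ => ℂ) f 2 :=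
  (memℓp_zero h).of_exponent_ge bot_le

private theorem support_jacobi (a b : ℕ → ℝ) {u : ℕ → ℂ} (h : (Function.support u).Finite) :
    (Function.support (jacobi a b u)).Finite := by
  have h1 : Function.support (jacobi a b u) ⊆
      (fun k => k + 1) '' Function.support u ∪ Function.support u ∪
        (fun k => k - 1) '' Function.support u := by
    intro k hk
    by_contra hcon
    simp only [Set.mem_union, not_or, Set.mem_image, Function.mem_support, not_exists,
      not_and] at hcon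
    obtain ⟨⟨h2, h3⟩, h4⟩ := hcon
    apply hk
    have h5 : u (k + 1) = 0 := by
      by_contra h6
      exact h4 (k + 1) h6 (by omega)
    have h7 : k ≠ 0 → u (k - 1) = 0 := by
      intro hk0
      by_contra h6
      exact h2 (k - 1) h6 (by omega)
    rw [not_not] at h3
    unfold jacobi
    split_ifs with h8
    · rw [h3, h5]; simp
    · rw [h3, h5, h7 h8]; simp
  exact (((h.image _).union h).union (h.image _)).subset h1

private theorem fs_add {u v : Ell2} (hu : (Function.support (u : ℕ → ℂ)).Finite)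
    (hv : (Function.support (v : ℕ → ℂ)).Finite) :
    (Function.support ((u + v : Ell2) : ℕ → ℂ)).Finite :=
  (hu.union hv).subset (Function.support_add _ _)

private theorem fs_zero : (Function.support ((0 : Ell2) : ℕ → ℂ)).Finite := by
  rw [lp.coeFn_zero, Function.support_zero]
  exact Set.finite_empty

private theorem fs_smul (c : ℂ) {u : Ell2} (hu : (Function.support (u : ℕ → ℂ)).Finite) :
    (Function.support ((c • u : Ell2) : ℕ → ℂ)).Finite := by
  refine Set.Finite.subset hu ?_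
  intro k hk hk0
  apply hk
  rw [lp.coeFn_smul, Pi.smul_apply, hk0, smul_zero]

/-- The finitely supported sequences. -/
def finitelySupported : Submodule ℂ Ell2 where
  carrier := {u | (Function.support (u : ℕ → ℂ)).Finite}
  add_mem' := fs_add
  zero_mem' := fs_zero
  smul_mem' := fun c _ hu => fs_smul c hu

private theorem jacobi_mem (a b : ℕ → ℝ) (u : finitelySupported) :
    Memℓp (E := fun _ : ℕ => ℂ) (jacobi a b (u : Ell2)) 2 :=
  memLp_of_finite (support_jacobi a b u.2)

/-- The sequence `C u`, for a finitely supported `u`, as an element of `ℓ²(ℕ)`. -/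
noncomputable def jacobiVec (a b : ℕ → ℝ) (u : finitelySupported) : Ell2 :=
  ⟨jacobi a b (u : Ell2), jacobi_mem a b u⟩

private theorem jacobi_add (a b : ℕ → ℝ) (u v : finitelySupported) :
    jacobiVec a b (u + v) = jacobiVec a b u + jacobiVec a b v := by
  ext k
  change jacobi a b ((u + v : finitelySupported) : Ell2) k
    = jacobi a b (u : Ell2) k + jacobi a b (v : Ell2) k
  simp only [jacobi, Submodule.coe_add, lp.coeFn_add, Pi.add_apply]
  split_ifs <;> ring

private theorem jacobi_smul (a b : ℕ → ℝ) (c : ℂ) (u : finitelySupported) :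
    jacobiVec a b (c • u) = c • jacobiVec a b u := by
  ext k
  change jacobi a b ((c • u : finitelySupported) : Ell2) k = c * jacobi a b (u : Ell2) k
  simp only [jacobi, Submodule.coe_smul, lp.coeFn_smul, Pi.smul_apply, smul_eq_mul]
  split_ifs <;> ring

/-- The Jacobi matrix as an operator of `ℓ²(ℕ)` defined on the finitely supported sequences. -/
noncomputable def jacobiMin (a b : ℕ → ℝ) : Ell2 →ₗ.[ℂ] Ell2 where
  domain := finitelySupported
  toFun :=
    { toFun := jacobiVec a b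
      map_add' := jacobi_add a b
      map_smul' := jacobi_smul a b }

/-- The Jacobi matrix is self-adjoint: its operator on the finitely supported sequences is closable
and the closure is self-adjoint. -/
def IsSelfAdjointJacobi (a b : ℕ → ℝ) : Prop :=
  (jacobiMin a b).IsClosable ∧ IsSelfAdjoint (jacobiMin a b).closure

/-- The essential spectrum of the Jacobi matrix, that is, of the closure of its operator on the
finitely supported sequences. -/
noncomputable def jacobiEssSpec (a b : ℕ → ℝ) : Set ℂ :=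
  essSpec (jacobiMin a b).closure

private theorem mem_domain {a b : ℕ → ℝ} {u : Ell2} :
    u ∈ (jacobiMin a b).domain ↔ (Function.support (u : ℕ → ℂ)).Finite := Iff.rfl

private theorem jacobiMin_apply {a b : ℕ → ℝ} (u : (jacobiMin a b).domain) (k : ℕ) :
    (jacobiMin a b u : ℕ → ℂ) k = jacobi a b (u : Ell2) k := rfl

private theorem exists_bound' {u : ℕ → ℂ} (h : (Function.support u).Finite) :
    ∃ N : ℕ, ∀ k, N ≤ k → u k = 0 := by
  obtain ⟨N, hN⟩ := h.bddAbove
  refine ⟨N + 1, fun k hk => ?_⟩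
  by_contra hne
  have := hN (Function.mem_support.mpr hne)
  omega

private theorem single_mem (a b : ℕ → ℝ) (k : ℕ) (c : ℂ) :
    lp.single 2 k c ∈ (jacobiMin a b).domain := by
  rw [mem_domain]
  refine (Set.finite_singleton k).subset ?_
  intro j hj
  by_contra hne
  apply hj
  rw [lp.coeFn_single]
  exact Pi.single_eq_of_ne hne _

private theorem dense_domain (a b : ℕ → ℝ) : Dense ((jacobiMin a b).domain : Set Ell2) := by
  intro u
  have h := lp.hasSum_single (E := fun _ : ℕ => ℂ) (p := 2) ENNReal.ofNat_ne_top u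
  refine mem_closure_of_tendsto h (Eventually.of_forall fun s => ?_)
  exact Submodule.sum_mem _ fun i _ => single_mem a b i _

private theorem green (a b : ℕ → ℝ) (u v : ℕ → ℂ) (n : ℕ) :
    ∑ k ∈ Finset.range (n + 1), (v k * (starRingEnd ℂ) (jacobi a b u k)
        - jacobi a b v k * (starRingEnd ℂ) (u k))
      = (a n : ℂ) * ((starRingEnd ℂ) (u (n + 1)) * v n - (starRingEnd ℂ) (u n) * v (n + 1)) := by
  induction n with
  | zero =>
    simp [jacobi]
    ring
  | succ n ih =>
    rw [Finset.sum_range_succ, ih]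
    simp [jacobi]
    ring

private theorem symmetric (a b : ℕ → ℝ) : (jacobiMin a b).IsFormalAdjoint (jacobiMin a b) := by
  intro u v
  obtain ⟨N, hN⟩ := exists_bound' (mem_domain.mp u.2)
  obtain ⟨M, hM⟩ := exists_bound' (mem_domain.mp v.2)
  set n := N + M with hn
  have hu : ∀ k, n ≤ k → (u : Ell2) k = 0 := fun k hk => hN k (by omega)
  have hv : ∀ k, n ≤ k → (v : Ell2) k = 0 := fun k hk => hM k (by omega)
  have h1 : inner ℂ (jacobiMin a b u) (v : Ell2)
      = ∑ k ∈ Finset.range (n + 1), (v : Ell2) k * (starRingEnd ℂ) (jacobi a b (u : Ell2) k) := by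
    rw [lp.inner_eq_tsum, tsum_eq_sum (s := Finset.range (n + 1))]
    · apply Finset.sum_congr rfl
      intro k _
      rw [RCLike.inner_apply, jacobiMin_apply]
    · intro k hk
      rw [Finset.mem_range] at hk
      rw [hv k (by omega), inner_zero_right]
  have h2 : inner ℂ (u : Ell2) (jacobiMin a b v)
      = ∑ k ∈ Finset.range (n + 1), jacobi a b (v : Ell2) k * (starRingEnd ℂ) ((u : Ell2) k) := by
    rw [lp.inner_eq_tsum, tsum_eq_sum (s := Finset.range (n + 1))]
    · apply Finset.sum_congr rfl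
      intro k _
      rw [RCLike.inner_apply, jacobiMin_apply]
    · intro k hk
      rw [Finset.mem_range] at hk
      rw [hu k (by omega), inner_zero_left]
  rw [h1, h2, ← sub_eq_zero, ← Finset.sum_sub_distrib, green, hu n le_rfl, hu (n + 1) (by omega),
    hv n le_rfl, hv (n + 1) (by omega)]
  simp

private theorem jacobi_single (a b : ℕ → ℝ) (k : ℕ) (j : ℕ) :
    jacobi a b (Pi.single k (1 : ℂ)) j
      = (if j = k + 1 then (a k : ℂ) else 0) + (if j = k then (b k : ℂ) else 0)
        + (if j + 1 = k then (a j : ℂ) else 0) := by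
  unfold jacobi
  have e1 : ∀ i, (Pi.single k (1 : ℂ) : ℕ → ℂ) i = if i = k then 1 else 0 := by
    intro i
    rw [Pi.single_apply]
  rw [e1, e1, e1]
  rcases Nat.eq_zero_or_pos j with hj | hj
  · subst hj
    have h0 : ¬ (0 = k + 1) := by omega
    rw [if_pos rfl, if_neg h0]
    by_cases h1 : 0 = k
    · subst h1
      simp
    · simp only [if_neg h1]
      by_cases h2 : 0 + 1 = k
      · simp [h2]
      · simp [h2]
  · rw [if_neg (by omega : ¬ j = 0)]
    by_cases h1 : j = k + 1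
    · subst h1
      simp
    · have h2 : ¬ (j - 1 = k) := by omega
      simp only [if_neg h1, if_neg h2]
      by_cases h3 : j = k
      · subst h3
        simp
      · simp only [if_neg h3]
        by_cases h4 : j + 1 = k
        · simp [h4]
        · simp [h4]

/-- The adjoint acts by the formal matrix. -/
private theorem adjoint_apply {a b : ℕ → ℝ} {p : Ell2 × Ell2}
    (hp : p ∈ (jacobiMin a b).adjoint.graph) (k : ℕ) :
    (p.2 : ℕ → ℂ) k = jacobi a b (p.1 : ℕ → ℂ) k := by
  let d : (jacobiMin a b).domain := ⟨lp.single 2 k (1 : ℂ), single_mem a b k 1⟩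
  have h := inner_of_mem_adjoint (dense_domain a b) hp ((jacobiMin a b).mem_graph d)
  have h1 : inner ℂ p.2 (lp.single 2 k (1 : ℂ) : Ell2) = (starRingEnd ℂ) (p.2 k) := by
    rw [lp.inner_single_right, RCLike.inner_apply, one_mul]
  have h2 : inner ℂ p.1 (jacobiMin a b d) = (starRingEnd ℂ) (jacobi a b (p.1 : ℕ → ℂ) k) := by
    rw [lp.inner_eq_tsum, tsum_eq_sum (s := Finset.range (k + 2))]
    · have h3 : ∀ j, (jacobiMin a b d : ℕ → ℂ) j = jacobi a b (Pi.single k (1 : ℂ)) j := by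
        intro j
        rw [jacobiMin_apply]
        rfl
      simp only [RCLike.inner_apply, h3, jacobi_single, add_mul, Finset.sum_add_distrib, ite_mul,
        zero_mul]
      rw [Finset.sum_ite_eq' (Finset.range (k + 2)) (k + 1), Finset.sum_ite_eq' _ k,
        if_pos (by simp), if_pos (by simp)]
      unfold jacobi
      rw [map_add, map_add, map_mul, map_mul, Complex.conj_ofReal, Complex.conj_ofReal]
      rcases Nat.eq_zero_or_pos k with hk | hk
      · subst hk
        simp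
        ring
      · obtain ⟨m, rfl⟩ : ∃ m, k = m + 1 := ⟨k - 1, by omega⟩
        have h5 : ∀ j, (if j + 1 = m + 1 then (a j : ℂ) * (starRingEnd ℂ) (p.1 j) else 0)
            = if j = m then (a j : ℂ) * (starRingEnd ℂ) (p.1 j) else 0 := by
          intro j
          by_cases hj : j = m
          · simp [hj]
          · rw [if_neg (by omega), if_neg hj]
        simp only [h5]
        rw [Finset.sum_ite_eq' (Finset.range (m + 1 + 2)) m, if_pos (by simp; omega),
          if_neg (by omega : ¬ m + 1 = 0), Nat.add_sub_cancel, map_mul, Complex.conj_ofReal]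
        ring
    · intro j hj
      rw [Finset.mem_range] at hj
      have h3 : (jacobiMin a b d : ℕ → ℂ) j = jacobi a b (Pi.single k (1 : ℂ)) j := by
        rw [jacobiMin_apply]
        rfl
      rw [h3, jacobi_single, if_neg (by omega), if_neg (by omega), if_neg (by omega)]
      simp
  have h3 : (starRingEnd ℂ) (p.2 k) = (starRingEnd ℂ) (jacobi a b (p.1 : ℕ → ℂ) k) := by
    rw [← h1, ← h2]
    exact h
  exact (starRingEnd ℂ).injective h3

private theorem summable_sq (u : Ell2) : Summable (fun k => ‖u k‖ ^ 2) := by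
  have h := (memℓp_gen_iff (p := 2) (by norm_num)).mp (lp.memℓp u)
  simpa using h

private theorem norm_sq_eq (u : Ell2) (n : ℕ) (h : ∀ k, n ≤ k → u k = 0) :
    ‖u‖ ^ 2 = ∑ k ∈ Finset.range n, ‖u k‖ ^ 2 := by
  have h1 := lp.norm_rpow_eq_tsum (p := 2) (by norm_num) u
  have h2 : ‖u‖ ^ 2 = ∑' k, ‖u k‖ ^ 2 := by
    simpa using h1
  rw [h2]
  apply tsum_eq_sum
  intro k hk
  rw [Finset.mem_range] at hk
  rw [h k (by omega)]
  simp

/-- The masses of the beads: heavy ones `1 / (j + 1)` at the places `2 ^ j`, light ones `16⁻ᵏ` at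
the other places `k`. -/
noncomputable def mass (k : ℕ) : ℝ :=
  if 2 ^ Nat.log 2 k = k then 1 / ((Nat.log 2 k : ℝ) + 1) else (1 / 16) ^ k

/-- The off-diagonal entries `1 / (2 √(m k) √(m (k + 1)))`. -/
noncomputable def offDiagonal (k : ℕ) : ℝ :=
  1 / (2 * Real.sqrt (mass k) * Real.sqrt (mass (k + 1)))

/-- The diagonal entries `1 / m k`. -/
noncomputable def diagonal (k : ℕ) : ℝ :=
  1 / mass k

private theorem offDiagonal_eq : offDiagonal = Pool.Agent.H46.ja := rfl

private theorem diagonal_eq : diagonal = Pool.Agent.H46.jb := rfl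

private theorem jacobi_eq (u : ℕ → ℂ) (k : ℕ) : jacobi offDiagonal diagonal u k
    = (if k = 0 then (0 : ℂ) else (Pool.Agent.H46.ja (k - 1) : ℂ) * u (k - 1))
      + (Pool.Agent.H46.jb k : ℂ) * u k + (Pool.Agent.H46.ja k : ℂ) * u (k + 1) := rfl

private theorem no_plus (x : Ell2)
    (hx : (x, Complex.I • x) ∈ (jacobiMin offDiagonal diagonal).adjoint.graph) : x = 0 := by
  have h := Pool.Agent.H46.selfadj (fun k => x k) (summable_sq x) (fun k => by
    have h1 := adjoint_apply hx k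
    rw [jacobi_eq] at h1
    rw [← h1]
    rfl)
  ext k
  exact congr_fun h k

private theorem no_minus (x : Ell2)
    (hx : (x, -Complex.I • x) ∈ (jacobiMin offDiagonal diagonal).adjoint.graph) : x = 0 := by
  have h := Pool.Agent.H46.selfadj (fun k => (starRingEnd ℂ) (x k)) (by
    have := summable_sq x
    simpa using this) (fun k => by
    have h1 := congr_arg (starRingEnd ℂ) (adjoint_apply hx k)
    rw [jacobi_eq] at h1
    rw [map_add, map_add, map_mul, map_mul, Complex.conj_ofReal, Complex.conj_ofReal] at h1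
    have h2 : (starRingEnd ℂ) (((-Complex.I • x : Ell2) : ℕ → ℂ) k)
        = Complex.I * (starRingEnd ℂ) (x k) := by
      rw [lp.coeFn_smul, Pi.smul_apply, smul_eq_mul, map_mul, map_neg, Complex.conj_I, neg_neg]
    rw [← h2, h1]
    congr 2
    split_ifs
    · simp
    · rw [map_mul, Complex.conj_ofReal])
  ext k
  have h3 := congr_fun h k
  simpa using h3

private theorem essentially : (jacobiMin offDiagonal diagonal).IsClosable ∧
    IsSelfAdjoint (jacobiMin offDiagonal diagonal).closure ∧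
    (jacobiMin offDiagonal diagonal).closure ≤ (jacobiMin offDiagonal diagonal).adjoint :=
  selfAdjoint_closure (dense_domain _ _) (symmetric _ _) no_plus no_minus

/-- A closed condition that holds on the finitely supported sequences holds on the closure. -/
private theorem closure_induction {P : Ell2 × Ell2 → Prop} (hP : IsClosed {q | P q})
    (h : ∀ q ∈ (jacobiMin offDiagonal diagonal).graph, P q) :
    ∀ q ∈ (jacobiMin offDiagonal diagonal).closure.graph, P q := by
  intro q hq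
  rw [← essentially.1.graph_closure_eq_closure_graph] at hq
  exact closure_minimal (s := ((jacobiMin offDiagonal diagonal).graph : Set (Ell2 × Ell2))) h hP hq

/-- Norms of `x` and `C x - t x` for finitely supported `x`. -/
private theorem norm_formulas (x : (jacobiMin offDiagonal diagonal).domain) (t : ℝ) (N : ℕ)
    (hN : ∀ k, N ≤ k → (x : Ell2) k = 0) :
    ‖(x : Ell2)‖ ^ 2 = ∑ k ∈ Finset.range (N + 1), ((x : Ell2) k).re ^ 2
        + ∑ k ∈ Finset.range (N + 1), ((x : Ell2) k).im ^ 2 ∧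
    ‖jacobiMin offDiagonal diagonal x - (t : ℂ) • (x : Ell2)‖ ^ 2
      = ∑ k ∈ Finset.range (N + 1), Pool.Agent.H46.jop t (fun k => ((x : Ell2) k).re) k ^ 2
        + ∑ k ∈ Finset.range (N + 1), Pool.Agent.H46.jop t (fun k => ((x : Ell2) k).im) k ^ 2 := by
  constructor
  · rw [norm_sq_eq _ (N + 1) (fun k hk => hN k (by omega)), ← Finset.sum_add_distrib]
    exact Finset.sum_congr rfl fun k _ => Pool.Agent.H46.norm_sq_re_im _
  · have h1 : ∀ k, ((jacobiMin offDiagonal diagonal x - (t : ℂ) • (x : Ell2) : Ell2) : ℕ → ℂ) k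
        = (if k = 0 then (0 : ℂ) else (Pool.Agent.H46.ja (k - 1) : ℂ) * (x : Ell2) (k - 1))
      + (Pool.Agent.H46.jb k : ℂ) * (x : Ell2) k + (Pool.Agent.H46.ja k : ℂ) * (x : Ell2) (k + 1)
        - (t : ℂ) * (x : Ell2) k := by
      intro k
      rw [lp.coeFn_sub, Pi.sub_apply, lp.coeFn_smul, Pi.smul_apply, jacobiMin_apply, jacobi_eq,
        smul_eq_mul]
    rw [norm_sq_eq _ (N + 1), ← Finset.sum_add_distrib]
    · apply Finset.sum_congr rfl
      intro k _
      rw [h1 k]
      exact Pool.Agent.H46.expr_sq t (fun k => (x : Ell2) k) k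
    · intro k hk
      rw [h1 k, hN k (by omega), hN (k + 1) (by omega), hN (k - 1) (by omega)]
      simp

private theorem lower_neg (t : ℝ) (ht : t ≤ 0) :
    ∀ q ∈ (jacobiMin offDiagonal diagonal).closure.graph,
      |t| * ‖q.1‖ ≤ ‖q.2 - (t : ℂ) • q.1‖ := by
  apply closure_induction
  · exact isClosed_le (by fun_prop) (by fun_prop)
  · rintro q hq
    rw [LinearPMap.mem_graph_iff] at hq
    obtain ⟨x, hx1, hx2⟩ := hq
    rw [← hx1, ← hx2]
    obtain ⟨N, hN⟩ := exists_bound' (mem_domain.mp x.2)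
    obtain ⟨h1, h2⟩ := norm_formulas x t N hN
    have h3 := Pool.Agent.H46.real_lower_neg (fun k => ((x : Ell2) k).re) N
      (fun k hk => by simp [hN k hk]) t ht
    have h4 := Pool.Agent.H46.real_lower_neg (fun k => ((x : Ell2) k).im) N
      (fun k hk => by simp [hN k hk]) t ht
    have h5 : (|t| * ‖(x : Ell2)‖) ^ 2
        ≤ ‖jacobiMin offDiagonal diagonal x - (t : ℂ) • (x : Ell2)‖ ^ 2 := by
      rw [mul_pow, sq_abs, h1, h2, mul_add]
      exact add_le_add h3 h4
    exact le_of_sq_le_sq h5 (norm_nonneg _)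

/-- The projection which removes the first `128` coordinates, acting on pairs `(x, C x)`. -/
private noncomputable def cut : Ell2 × Ell2 → Ell2 × Ell2 := fun q =>
  q - ∑ k ∈ Finset.range 128, ((q.1 : ℕ → ℂ) k) •
    ((lp.single 2 k (1 : ℂ) : Ell2),
      jacobiMin offDiagonal diagonal ⟨lp.single 2 k (1 : ℂ), single_mem _ _ k 1⟩)

private theorem continuous_coord (k : ℕ) : Continuous (fun u : Ell2 => (u : ℕ → ℂ) k) := by
  have h : (fun u : Ell2 => (u : ℕ → ℂ) k)
      = fun u : Ell2 => inner ℂ (lp.single 2 k (1 : ℂ) : Ell2) u := by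
    funext u
    rw [lp.inner_single_left, RCLike.inner_apply, map_one, mul_one]
  rw [h]
  fun_prop

private theorem continuous_cut : Continuous cut := by
  unfold cut
  refine continuous_id.sub (continuous_finsetSum _ fun k _ => ?_)
  exact ((continuous_coord k).comp continuous_fst).smul continuous_const

private theorem cut_graph (q : Ell2 × Ell2) (hq : q ∈ (jacobiMin offDiagonal diagonal).graph) :
    cut q ∈ (jacobiMin offDiagonal diagonal).graph := by
  unfold cut
  refine Submodule.sub_mem _ hq (Submodule.sum_mem _ fun k _ => Submodule.smul_mem _ _ ?_)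
  exact (jacobiMin offDiagonal diagonal).mem_graph ⟨_, single_mem _ _ k 1⟩

private theorem cut_coord (q : Ell2 × Ell2) (j : ℕ) (hj : j < 128) :
    ((cut q).1 : ℕ → ℂ) j = 0 := by
  unfold cut
  rw [Prod.fst_sub, Prod.fst_sum, lp.coeFn_sub, Pi.sub_apply, lp.coeFn_sum, Finset.sum_apply]
  simp only [Prod.smul_fst, lp.coeFn_smul, Pi.smul_apply, smul_eq_mul, lp.coeFn_single]
  rw [Finset.sum_eq_single j]
  · rw [Pi.single_eq_same, mul_one, sub_self]
  · intro k _ hk
    rw [Pi.single_eq_of_ne (Ne.symm hk), mul_zero]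
  · intro h
    exact absurd (Finset.mem_range.mpr hj) h

private theorem cut_of_zero (q : Ell2 × Ell2) (h : ∀ k, k < 128 → (q.1 : ℕ → ℂ) k = 0) :
    cut q = q := by
  unfold cut
  rw [Finset.sum_eq_zero, sub_zero]
  intro k hk
  rw [h k (Finset.mem_range.mp hk), zero_smul]

private theorem isClosed_gap (c : Ell2 × Ell2 → Ell2 × Ell2) (hc : Continuous c)
    (r : ℝ) (z : ℂ) :
    IsClosed {q : Ell2 × Ell2 | r * ‖(c q).1‖ ≤ ‖(c q).2 - z • (c q).1‖} := by
  have h1 : Continuous (fun q : Ell2 × Ell2 => (c q).1) := continuous_fst.comp hc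
  have h2 : Continuous (fun q : Ell2 × Ell2 => (c q).2) := continuous_snd.comp hc
  exact isClosed_le (by fun_prop) (by fun_prop)

private theorem lower_gap :
    ∀ q ∈ (jacobiMin offDiagonal diagonal).closure.graph,
      3 / 8 * ‖(cut q).1‖ ≤ ‖(cut q).2 - ((1 : ℝ) : ℂ) • (cut q).1‖ := by
  apply closure_induction (isClosed_gap cut continuous_cut (3 / 8) ((1 : ℝ) : ℂ))
  · rintro q hq
    have hq' := cut_graph q hq
    have hlow := cut_coord q
    generalize cut q = p at hq' hlow ⊢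
    rw [LinearPMap.mem_graph_iff] at hq'
    obtain ⟨x, hx1, hx2⟩ := hq'
    rw [← hx1] at hlow ⊢
    rw [← hx2]
    obtain ⟨N0, hN0⟩ := exists_bound' (mem_domain.mp x.2)
    have hN : ∀ k, 2 ^ N0 ≤ k → (x : Ell2) k = 0 := by
      intro k hk
      apply hN0
      exact (Nat.lt_two_pow_self).le.trans hk
    obtain ⟨h1, h2⟩ := norm_formulas x 1 (2 ^ N0) hN
    have h3 := Pool.Agent.H46.real_lower_gap (fun k => ((x : Ell2) k).re) N0
      (fun k hk => by simp [hlow k hk]) (fun k hk => by simp [hN k hk])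
    have h4 := Pool.Agent.H46.real_lower_gap (fun k => ((x : Ell2) k).im) N0
      (fun k hk => by simp [hlow k hk]) (fun k hk => by simp [hN k hk])
    have h5 : (3 / 8 * ‖(x : Ell2)‖) ^ 2
        ≤ ‖jacobiMin offDiagonal diagonal x - ((1 : ℝ) : ℂ) • (x : Ell2)‖ ^ 2 := by
      rw [mul_pow, h1, h2, mul_add]
      have e : ((3 : ℝ) / 8) ^ 2 = 9 / 64 := by norm_num
      rw [e]
      exact add_le_add h3 h4
    exact le_of_sq_le_sq h5 (norm_nonneg _)

/-- The solutions of the recurrence at `0` grow. -/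
private theorem real_kernel (x : ℕ → ℝ) (h : ∀ k, Pool.Agent.H46.jop 0 x k = 0)
    (hs : Summable (fun k => x k ^ 2)) : ∀ k, x k = 0 := by
  obtain ⟨w, rfl, -⟩ := Pool.Agent.H46.twist_surj x
  have hlap : ∀ k, Pool.Agent.H46.lap w k = 0 := by
    intro k
    have h1 := h k
    rw [Pool.Agent.H46.jop_twist, zero_mul, sub_zero] at h1
    rcases mul_eq_zero.mp h1 with h2 | h2
    · exact absurd h2 (pow_ne_zero _ (by norm_num))
    · rcases div_eq_zero_iff.mp h2 with h3 | h3
      · exact h3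
      · exact absurd h3 (Pool.Agent.H46.sm_pos k).ne'
  have hw : ∀ k, w k = (k + 1) * w 0 ∧ w (k + 1) = (k + 2) * w 0 := by
    intro k
    induction k with
    | zero =>
      have h1 := hlap 0
      simp only [Pool.Agent.H46.lap, if_true] at h1
      constructor
      · simp
      · push_cast
        linarith
    | succ k ih =>
      have h1 := hlap (k + 1)
      simp only [Pool.Agent.H46.lap, Nat.add_eq_zero_iff, one_ne_zero, and_false, if_false,
        Nat.add_sub_cancel] at h1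
      obtain ⟨i1, i2⟩ := ih
      refine ⟨by rw [i2]; push_cast; ring, ?_⟩
      rw [i1, i2] at h1
      push_cast
      linarith
  have hw0 : w 0 = 0 := by
    by_contra hne
    apply Pool.Agent.H46.mass_not_summable
    have h5 : Summable (fun k => Pool.Agent.H46.mass k * w 0 ^ 2) := by
      refine Summable.of_nonneg_of_le
        (fun k => mul_nonneg (Pool.Agent.H46.mass_pos k).le (sq_nonneg _)) (fun k => ?_) hs
      have h6 : Pool.Agent.H46.twist w k ^ 2 = Pool.Agent.H46.mass k * w k ^ 2 := by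
        unfold Pool.Agent.H46.twist
        rw [← Pool.Agent.H46.sm_sq]
        have h7 := Pool.Agent.H46.neg_one_pow_mul_self k
        calc ((-1 : ℝ) ^ k * Pool.Agent.H46.sm k * w k) ^ 2
            = ((-1 : ℝ) ^ k * (-1) ^ k) * (Pool.Agent.H46.sm k ^ 2 * w k ^ 2) := by ring
          _ = _ := by rw [h7, one_mul]
      rw [h6]
      apply mul_le_mul_of_nonneg_left _ (Pool.Agent.H46.mass_pos k).le
      rw [(hw k).1, mul_pow]
      have h8 : (1 : ℝ) ≤ ((k : ℝ) + 1) ^ 2 := by
        have : (0 : ℝ) ≤ k := by positivity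
        nlinarith
      nlinarith [sq_nonneg (w 0)]
    have h9 : w 0 ^ 2 ≠ 0 := pow_ne_zero _ hne
    exact (summable_mul_right_iff h9).mp h5
  intro k
  unfold Pool.Agent.H46.twist
  rw [(hw k).1, hw0]
  ring

private theorem kernel (x : Ell2)
    (hx : (x, (0 : Ell2)) ∈ (jacobiMin offDiagonal diagonal).adjoint.graph) : x = 0 := by
  have h1 : ∀ k, jacobi offDiagonal diagonal x k = 0 := by
    intro k
    rw [← adjoint_apply hx k]
    rfl
  have hs := summable_sq x
  have hre : ∀ k, Pool.Agent.H46.jop 0 (fun k => (x k).re) k = 0 := by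
    intro k
    have h2 := congr_arg Complex.re (h1 k)
    rw [jacobi_eq] at h2
    unfold Pool.Agent.H46.jop
    split_ifs at h2 ⊢ <;> simp at h2 ⊢ <;> linarith
  have him : ∀ k, Pool.Agent.H46.jop 0 (fun k => (x k).im) k = 0 := by
    intro k
    have h2 := congr_arg Complex.im (h1 k)
    rw [jacobi_eq] at h2
    unfold Pool.Agent.H46.jop
    split_ifs at h2 ⊢ <;> simp at h2 ⊢ <;> linarith
  have e1 := real_kernel _ hre (by
    refine Summable.of_nonneg_of_le (fun k => sq_nonneg _) (fun k => ?_) hs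
    rw [Pool.Agent.H46.norm_sq_re_im]
    nlinarith [sq_nonneg (x k).im])
  have e2 := real_kernel _ him (by
    refine Summable.of_nonneg_of_le (fun k => sq_nonneg _) (fun k => ?_) hs
    rw [Pool.Agent.H46.norm_sq_re_im]
    nlinarith [sq_nonneg (x k).re])
  ext k
  exact Complex.ext (e1 k) (e2 k)

private theorem small_vector (ε : ℝ) (hε : 0 < ε) : ∃ x : (jacobiMin offDiagonal diagonal).domain,
    (x : Ell2) ≠ 0 ∧ ‖jacobiMin offDiagonal diagonal x‖ ≤ ε * ‖(x : Ell2)‖ := by
  obtain ⟨V, hV, hx⟩ := Pool.Agent.H46.zero_mem_essSet ε hε 1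
  have hnt : Nontrivial V := Module.nontrivial_of_finrank_pos (R := ℂ) (by rw [hV]; norm_num)
  obtain ⟨⟨y, hyV⟩, hy0⟩ := exists_ne (0 : V)
  have hy0' : y ≠ 0 := fun h => hy0 (by ext; simp [h])
  have h1 := hx y hyV
  have hfin : (Function.support (y : ℕ → ℂ)).Finite := by
    refine y.support.finite_toSet.subset ?_
    intro k hk
    exact Finsupp.mem_support_iff.mpr hk
  let u : Ell2 := ⟨(y : ℕ → ℂ), memLp_of_finite hfin⟩
  have hu : u ∈ (jacobiMin offDiagonal diagonal).domain := mem_domain.mpr hfin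
  refine ⟨⟨u, hu⟩, ?_, ?_⟩
  · intro h
    apply hy0'
    ext k
    have : (u : ℕ → ℂ) k = 0 := by
      have h2 : (u : Ell2) = 0 := h
      rw [h2]
      rfl
    exact this
  · obtain ⟨N, hN⟩ := exists_bound' hfin
    obtain ⟨n1, n2⟩ := norm_formulas ⟨u, hu⟩ 0 N hN
    have hN' : ∀ k, N ≤ k → y k = 0 := hN
    rw [Pool.Agent.H46.tsum_expr 0 y N hN', Pool.Agent.H46.tsum_norm_sq y N hN'] at h1
    rw [Complex.ofReal_zero, zero_smul, sub_zero] at n2
    have h5 : ‖jacobiMin offDiagonal diagonal ⟨u, hu⟩‖ ^ 2 ≤ (ε * ‖(u : Ell2)‖) ^ 2 := by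
      rw [mul_pow]
      have e1 : ‖u‖ ^ 2 = _ := n1
      rw [e1, n2]
      exact h1
    exact le_of_sq_le_sq h5 (by positivity)

private theorem main :
    (∀ n, 0 < offDiagonal n) ∧
    Tendsto diagonal atTop atTop ∧
    (∀ n, offDiagonal n ^ 2 / (diagonal n * diagonal (n + 1)) = 1 / 4) ∧
    (jacobiMin offDiagonal diagonal).IsClosable ∧
    IsSelfAdjoint (jacobiMin offDiagonal diagonal).closure ∧
    (∀ z ∈ essSpec (jacobiMin offDiagonal diagonal).closure, z.im = 0 ∧ 0 ≤ z.re) ∧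
    (0 : ℂ) ∈ essSpec (jacobiMin offDiagonal diagonal).closure ∧
    ∀ t : ℝ, |t - 1| < 3 / 8 → (t : ℂ) ∉ essSpec (jacobiMin offDiagonal diagonal).closure := by
  obtain ⟨hcl, hsa, hle⟩ := essentially
  set C := (jacobiMin offDiagonal diagonal).closure with hC
  refine ⟨Pool.Agent.H46.ja_pos, Pool.Agent.H46.jb_tendsto, Pool.Agent.H46.ratio_eq, hcl, hsa,
    ?_, ?_, ?_⟩
  · rintro z ⟨hz, -⟩
    have him : z.im = 0 := by
      by_contra hne
      exact hz (regular_of_im hsa z hne)
    refine ⟨him, ?_⟩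
    by_contra hneg
    push Not at hneg
    apply hz
    have hzr : z = (z.re : ℂ) := by
      apply Complex.ext
      · simp
      · simp [him]
    have hb : ∀ p : C.graph, |z.re| * ‖p.1.1‖ ≤ ‖sh C (z.re : ℂ) p‖ := by
      intro p
      rw [sh_apply]
      exact lower_neg z.re hneg.le p.1 p.2
    rw [hzr]
    apply regular_of_bound hsa _ |z.re| (abs_pos.mpr hneg.ne) hb
    rw [Complex.conj_ofReal]
    exact hb
  · constructor
    · rintro ⟨R, hR1, hR2⟩
      obtain ⟨x, hx0, hx⟩ := small_vector (1 / (2 * (‖R‖ + 1))) (by positivity)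
      have hxC : (x : Ell2) ∈ C.domain := (jacobiMin offDiagonal diagonal).le_closure.1 x.2
      have hCx : C ⟨x, hxC⟩ = jacobiMin offDiagonal diagonal x :=
        ((jacobiMin offDiagonal diagonal).le_closure.2 rfl).symm
      have h1 := hR2 _ (C.mem_graph ⟨x, hxC⟩)
      change R (C ⟨x, hxC⟩ - (0 : ℂ) • (x : Ell2)) = (x : Ell2) at h1
      rw [zero_smul, sub_zero, hCx] at h1
      have h2 : ‖(x : Ell2)‖ ≤ ‖R‖ * ‖jacobiMin offDiagonal diagonal x‖ := by
        calc ‖(x : Ell2)‖ = ‖R (jacobiMin offDiagonal diagonal x)‖ := by rw [h1]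
          _ ≤ _ := R.le_opNorm _
      have h3 : 0 < ‖(x : Ell2)‖ := norm_pos_iff.mpr hx0
      have h4 : 0 ≤ ‖R‖ := norm_nonneg _
      have h5 : ‖R‖ * ‖jacobiMin offDiagonal diagonal x‖
          ≤ ‖R‖ * (1 / (2 * (‖R‖ + 1)) * ‖(x : Ell2)‖) := mul_le_mul_of_nonneg_left hx h4
      have h6 : ‖R‖ * (1 / (2 * (‖R‖ + 1)) * ‖(x : Ell2)‖) ≤ 1 / 2 * ‖(x : Ell2)‖ := by
        have e : ‖R‖ * (1 / (2 * (‖R‖ + 1)) * ‖(x : Ell2)‖)
          = (‖R‖ / (‖R‖ + 1)) * (1 / 2 * ‖(x : Ell2)‖) := by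
          field_simp
        rw [e]
        have h7 : ‖R‖ / (‖R‖ + 1) ≤ 1 := by
          rw [div_le_one (by positivity)]
          linarith
        have h8 : 0 ≤ 1 / 2 * ‖(x : Ell2)‖ := by positivity
        nlinarith
      linarith
    · rintro ⟨-, hne, -⟩
      apply hne
      rw [Submodule.eq_bot_iff]
      intro x hx
      have hx' : (x, (0 : ℂ) • x) ∈ C.graph := hx
      rw [zero_smul] at hx'
      exact kernel x (LinearPMap.le_graph_of_le hle hx')
  · intro t ht
    rintro ⟨hz, hnot⟩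
    -- the functionals
    let φ : Ell2 →L[ℂ] (Fin 128 → ℂ) := ContinuousLinearMap.pi fun i : Fin 128 =>
      innerSL ℂ (lp.single 2 (i : ℕ) (1 : ℂ) : Ell2)
    have hφ : ∀ (u : Ell2) (i : Fin 128), φ u i = (u : ℕ → ℂ) i := by
      intro u i
      change inner ℂ (lp.single 2 (i : ℕ) (1 : ℂ) : Ell2) u = _
      rw [lp.inner_single_left, RCLike.inner_apply, map_one, mul_one]
    have hc : 0 < 3 / 8 - |t - 1| := by linarith
    obtain ⟨g1, g2, g3⟩ := gap hsa t (3 / 8 - |t - 1|) hc φ (by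
      intro p hp
      have h1 : ∀ k, k < 128 → ((p.1.1 : Ell2) : ℕ → ℂ) k = 0 := by
        intro k hk
        have h2 := congr_fun hp ⟨k, hk⟩
        rw [hφ] at h2
        exact h2
      have h3 := lower_gap p.1 p.2
      rw [cut_of_zero p.1 h1] at h3
      have h4 : p.1.2 - ((1 : ℝ) : ℂ) • p.1.1 = sh C (t : ℂ) p + ((t - 1 : ℝ) : ℂ) • p.1.1 := by
        rw [sh_apply, Complex.ofReal_sub, sub_smul]
        abel
      rw [h4] at h3
      have h5 : ‖sh C (t : ℂ) p + ((t - 1 : ℝ) : ℂ) • p.1.1‖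
          ≤ ‖sh C (t : ℂ) p‖ + |t - 1| * ‖p.1.1‖ := by
        refine (norm_add_le _ _).trans ?_
        rw [norm_smul, Complex.norm_real, Real.norm_eq_abs]
      linarith)
    apply hnot
    refine ⟨?_, ?_, g1⟩
    · filter_upwards [g2] with w hw
      exact fun h => h hw
    · intro hbot
      exact hz (g3 hbot)

/-- An explicit Jacobi matrix which satisfies (H) with `a² / (b b') = 1/4` exactly and `ρ = 0`, and
whose essential spectrum has a gap: it contains `0`, is contained in `[0, ∞)`, and is disjoint from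
the interval `(5/8, 11/8)`. -/
theorem result :
    (∀ n, 0 < offDiagonal n) ∧
    Tendsto diagonal atTop atTop ∧
    (∀ n, offDiagonal n ^ 2 / (diagonal n * diagonal (n + 1)) = 1 / 4) ∧
    IsSelfAdjointJacobi offDiagonal diagonal ∧
    (∀ z ∈ jacobiEssSpec offDiagonal diagonal, z.im = 0 ∧ 0 ≤ z.re) ∧
    (0 : ℂ) ∈ jacobiEssSpec offDiagonal diagonal ∧
    ∀ t : ℝ, |t - 1| < 3 / 8 → (t : ℂ) ∉ jacobiEssSpec offDiagonal diagonal := by
  obtain ⟨h1, h2, h3, h4, h5, h6, h7, h8⟩ := main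
  exact ⟨h1, h2, h3, ⟨h4, h5⟩, h6, h7, h8⟩

end Pool.Agent.Results.MP_268976_an.EssentialSpectrumGap
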